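import Pool.Agent.Lib.MP_b538eb_ag.Maya.E

set_option autoImplicit false

open Pool.Agent.Lib.MP_b538eb_ag

theorem Pool.Agent.Results.MP_b538eb_ag.SurfaceDefect.result (N : ℕ) :
    ∃ (R : Type) (_ : CommRing R) (_ : Algebra ℂ R) (br : R → R → R),
      IsDomain R ∧ Algebra.FiniteType ℂ R ∧ IsPoisson br ∧ ResolvedByPlane br ∧
      Nonempty ((R ⧸ Submodule.span ℂ {x : R | ∃ f g, x = br f g}) ≃ₗ[ℂ] (Fin N → ℂ)) ∧
      ∃ (A : Type) (_ : Ring A) (_ : Algebra (PowerSeries ℂ) A) (π : A →+* R),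
        IsQuantization br π ∧
        Submodule.span (LaurentSeries ℂ)
          {x : TensorProduct (PowerSeries ℂ) (LaurentSeries ℂ) A | ∃ a b, x = a * b - b * a} = ⊤ :=
  ⟨(curve N).Rr, inferInstance, inferInstance, fun a b => (curve N).brR a b, inferInstance,
    Ma.finiteType_R, Ma.isPoisson, Ma.resolved, Ma.hp_rank (curve_low N) (curve_add N),
    (curve N).data.A, inferInstance, inferInstance, (curve N).data.π,
    (curve N).data.isQuantization, Ma.hh_top⟩
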